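import Mathlib
import Pool.Agent.H631R2.Arith

set_option autoImplicit false

/-!
# Forcing with a measure algebra

The conditions are the measurable sets of positive measure, ordered by almost inclusion.
-/

namespace Pool.Agent.R582.Rand

open Cardinal Set MeasureTheory
open scoped ENNReal
open Pool.Agent.Helper292.SP (fnot fand fall fimp fiff fex fground meets IsFun mem_fex mem_fimp
  not_fex down_meets meets_cst meets_of_mem IsFun_tot IsFun_fun)
open Pool.Agent.H631R2 (CCC NoOnto PowLE meets_of_dense mem_fiff mem_fiff_meets)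

/-- Forcing with the measure algebra of `μ`: conditions are the measurable sets which are not null;
`p ≤ q` if `p \ q` is null. -/
structure MAlg {Ω : Type} [MeasurableSpace Ω] (μ : Measure Ω) where
  s : Set Ω
  meas : MeasurableSet s
  pos : μ s ≠ 0

instance {Ω : Type} [MeasurableSpace Ω] (μ : Measure Ω) : Preorder (MAlg μ) where
  le p q := μ (p.s \ q.s) = 0
  le_refl p := by simp
  le_trans p q r h1 h2 := by
    have h : p.s \ r.s ⊆ (p.s \ q.s) ∪ (q.s \ r.s) := by
      intro x hx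
      by_cases hq : x ∈ q.s
      · exact Or.inr ⟨hq, hx.2⟩
      · exact Or.inl ⟨hx.1, hq⟩
    exact measure_mono_null h (measure_union_null h1 h2)

section

variable {Ω : Type} [MeasurableSpace Ω] {μ : Measure Ω}

theorem le_iff {p q : MAlg μ} : p ≤ q ↔ μ (p.s \ q.s) = 0 := Iff.rfl

theorem null_diff_trans {A B C : Set Ω} (h1 : μ (A \ B) = 0) (h2 : μ (B \ C) = 0) :
    μ (A \ C) = 0 := by
  have h : A \ C ⊆ (A \ B) ∪ (B \ C) := by
    intro x hx
    by_cases hq : x ∈ B
    · exact Or.inr ⟨hq, hx.2⟩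
    · exact Or.inl ⟨hx.1, hq⟩
  exact measure_mono_null h (measure_union_null h1 h2)

theorem null_diff_of_subset {A B : Set Ω} (h : A ⊆ B) : μ (A \ B) = 0 := by
  rw [diff_eq_empty.2 h]; simp

/-- a condition below `p` inside the measurable set `E` -/
def MAlg.inter (p : MAlg μ) (E : Set Ω) (hE : MeasurableSet E) (h : μ (p.s ∩ E) ≠ 0) : MAlg μ :=
  ⟨p.s ∩ E, p.meas.inter hE, h⟩

theorem MAlg.inter_le (p : MAlg μ) (E : Set Ω) (hE : MeasurableSet E) (h : μ (p.s ∩ E) ≠ 0) :
    p.inter E hE h ≤ p := null_diff_of_subset inter_subset_left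

/-- if `r` is almost contained in two disjoint sets then it is null -/
theorem MAlg.false_of_disj (r : MAlg μ) {A B : Set Ω} (h1 : μ (r.s \ A) = 0) (h2 : μ (r.s \ B) = 0)
    (h : μ (A ∩ B) = 0) : False := by
  apply r.pos
  have h3 : r.s ⊆ (r.s \ A) ∪ (r.s \ B) ∪ (A ∩ B) := by
    intro x hx
    by_cases ha : x ∈ A
    · by_cases hb : x ∈ B
      · exact Or.inr ⟨ha, hb⟩
      · exact Or.inl (Or.inr ⟨hx, hb⟩)
    · exact Or.inl (Or.inl ⟨hx, ha⟩)
  exact measure_mono_null h3 (measure_union_null (measure_union_null h1 h2) h)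

/-- the supremum of a family of measurable sets in the measure algebra -/
theorem exists_sup [IsFiniteMeasure μ] (S : Set (Set Ω)) (hS : ∀ A ∈ S, MeasurableSet A)
    (h0 : ∅ ∈ S) : ∃ A : ℕ → Set Ω, (∀ n, A n ∈ S) ∧ ∀ B ∈ S, μ (B \ ⋃ n, A n) = 0 := by
  classical
  set T : Set ℝ≥0∞ := {c | ∃ A : ℕ → Set Ω, (∀ n, A n ∈ S) ∧ c = μ (⋃ n, A n)} with hT
  have hTne : T.Nonempty := ⟨_, fun _ => ∅, fun _ => h0, rfl⟩
  obtain ⟨u, -, hu, huT⟩ := exists_seq_tendsto_sSup hTne (OrderTop.bddAbove T)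
  choose A hA hAu using huT
  let e := Nat.pairEquiv
  refine ⟨fun n => A (Nat.unpair n).1 (Nat.unpair n).2, fun n => hA _ _, ?_⟩
  have hun : (⋃ n, A (Nat.unpair n).1 (Nat.unpair n).2) = ⋃ i, ⋃ j, A i j := by
    ext x
    simp only [mem_iUnion]
    constructor
    · rintro ⟨n, hn⟩
      exact ⟨_, _, hn⟩
    · rintro ⟨i, j, h⟩
      exact ⟨Nat.pair i j, by simpa using h⟩
  have hmeas : MeasurableSet (⋃ n, A (Nat.unpair n).1 (Nat.unpair n).2) :=
    MeasurableSet.iUnion fun n => hS _ (hA _ _)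
  have hsup : sSup T ≤ μ (⋃ n, A (Nat.unpair n).1 (Nat.unpair n).2) := by
    apply le_of_tendsto' hu
    intro n
    rw [hAu n]
    apply measure_mono
    rw [hun]
    exact subset_iUnion (fun i => ⋃ j, A i j) n
  intro B hB
  set E := ⋃ n, A (Nat.unpair n).1 (Nat.unpair n).2 with hE
  have h1 : μ (E ∪ B) ≤ sSup T := by
    apply le_sSup
    refine ⟨fun n => if n = 0 then B else A (Nat.unpair (n - 1)).1 (Nat.unpair (n - 1)).2, ?_, ?_⟩
    · intro n
      dsimp only
      split_ifs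
      · exact hB
      · exact hA _ _
    · congr 1
      ext x
      simp only [mem_union, mem_iUnion, hE]
      constructor
      · rintro (⟨n, hn⟩ | h)
        · exact ⟨n + 1, by simpa using hn⟩
        · exact ⟨0, by simpa using h⟩
      · rintro ⟨n, hn⟩
        by_cases h : n = 0
        · rw [if_pos h] at hn
          exact Or.inr hn
        · rw [if_neg h] at hn
          exact Or.inl ⟨_, hn⟩
  have h2 : μ (E ∪ B) = μ E + μ (B \ E) := by
    rw [← union_diff_self, measure_union disjoint_sdiff_self_right ((hS B hB).diff hmeas)]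
  have h3 : μ E + μ (B \ E) ≤ μ E + 0 := by
    rw [← h2, add_zero]
    exact h1.trans hsup
  exact le_antisymm ((ENNReal.add_le_add_iff_left (measure_ne_top μ E)).1 h3) zero_le

/-- A set of conditions meets the generic filter iff the generic is in the supremum; the supremum
is the union of countably many measurable sets almost contained in elements of `N`. -/
theorem exists_val_aux [IsFiniteMeasure μ] (N : Set (MAlg μ)) : ∃ A : ℕ → Set Ω,
    (∀ n, MeasurableSet (A n)) ∧ (∀ n, A n = ∅ ∨ ∃ s ∈ N, μ (A n \ s.s) = 0) ∧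
    ∀ p : MAlg μ, p ∈ meets N ↔ μ (p.s \ ⋃ n, A n) = 0 := by
  obtain ⟨A, hA, hsup⟩ := exists_sup (μ := μ)
    {A | MeasurableSet A ∧ (A = ∅ ∨ ∃ s ∈ N, μ (A \ s.s) = 0)} (fun A hA => hA.1)
    ⟨MeasurableSet.empty, Or.inl rfl⟩
  have hAm : MeasurableSet (⋃ n, A n) := MeasurableSet.iUnion fun n => (hA n).1
  refine ⟨A, fun n => (hA n).1, fun n => (hA n).2, fun p => ⟨fun h => ?_, fun h q hq => ?_⟩⟩
  · by_contra hne
    let q : MAlg μ := ⟨p.s \ ⋃ n, A n, p.meas.diff hAm, hne⟩
    obtain ⟨r, hr, s, hs, hrs⟩ := h q (null_diff_of_subset diff_subset)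
    have h1 : μ (r.s \ ⋃ n, A n) = 0 := hsup r.s ⟨r.meas, Or.inr ⟨s, hs, hrs⟩⟩
    refine r.false_of_disj h1 hr ?_
    have : (⋃ n, A n) ∩ q.s = ∅ := by
      ext x
      simp only [mem_inter_iff, mem_empty_iff_false, iff_false, not_and]
      intro h1 h2
      exact h2.2 h1
    rw [this]; simp
  · have h1 : μ (q.s \ ⋃ n, A n) = 0 := null_diff_trans hq h
    have h2 : ∃ n, μ (q.s ∩ A n) ≠ 0 := by
      by_contra hcon
      push Not at hcon
      apply q.pos
      have h3 : q.s ⊆ (q.s \ ⋃ n, A n) ∪ ⋃ n, q.s ∩ A n := by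
        intro x hx
        by_cases hx' : x ∈ ⋃ n, A n
        · right
          obtain ⟨n, hn⟩ := mem_iUnion.1 hx'
          exact mem_iUnion.2 ⟨n, hx, hn⟩
        · exact Or.inl ⟨hx, hx'⟩
      exact measure_mono_null h3 (measure_union_null h1 (measure_iUnion_null hcon))
    obtain ⟨n, hn⟩ := h2
    refine ⟨q.inter (A n) (hA n).1 hn, q.inter_le _ _ _, ?_⟩
    rcases (hA n).2 with h0 | ⟨s, hs, hs'⟩
    · exfalso
      rw [h0] at hn
      simp at hn
    · exact ⟨s, hs, null_diff_trans (null_diff_of_subset inter_subset_right) hs'⟩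

theorem exists_val [IsFiniteMeasure μ] (N : Set (MAlg μ)) : ∃ E : Set Ω,
    MeasurableSet E ∧ ∀ p : MAlg μ, p ∈ meets N ↔ μ (p.s \ E) = 0 := by
  obtain ⟨A, h1, -, h2⟩ := exists_val_aux N
  exact ⟨_, MeasurableSet.iUnion h1, h2⟩

/-- the Boolean value of a set of conditions, a measurable set -/
noncomputable def val [IsFiniteMeasure μ] (N : Set (MAlg μ)) : Set Ω := (exists_val N).choose

theorem val_meas [IsFiniteMeasure μ] (N : Set (MAlg μ)) : MeasurableSet (val N) :=
  (exists_val N).choose_spec.1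

theorem mem_meets [IsFiniteMeasure μ] {N : Set (MAlg μ)} {p : MAlg μ} :
    p ∈ meets N ↔ μ (p.s \ val N) = 0 := (exists_val N).choose_spec.2 p

/-- the name of a set with Boolean value `E` -/
def cst (E : Set Ω) : Set (MAlg μ) := {p | μ (p.s \ E) = 0}

theorem mem_cst {E : Set Ω} {p : MAlg μ} : p ∈ (cst E : Set (MAlg μ)) ↔ μ (p.s \ E) = 0 := Iff.rfl

theorem mem_meets_cst {E : Set Ω} (hE : MeasurableSet E) {p : MAlg μ} :
    p ∈ meets (cst E : Set (MAlg μ)) ↔ μ (p.s \ E) = 0 := by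
  constructor
  · intro h
    by_contra hne
    let q : MAlg μ := ⟨p.s \ E, p.meas.diff hE, hne⟩
    obtain ⟨r, hr, s, hs, hrs⟩ := h q (null_diff_of_subset diff_subset)
    refine r.false_of_disj hr (null_diff_trans hrs hs) ?_
    have : q.s ∩ E = ∅ := by
      ext x
      simp only [mem_inter_iff, mem_empty_iff_false, iff_false, not_and]
      intro h1 h2
      exact h1.2 h2
    rw [this]; simp
  · intro h q hq
    exact ⟨q, le_rfl, q, null_diff_trans hq h, le_rfl⟩

/-- below any condition not almost contained in `E` there is one disjoint from `E` -/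
theorem exists_diff {E : Set Ω} (hE : MeasurableSet E) {p : MAlg μ} (h : μ (p.s \ E) ≠ 0) :
    ∃ q : MAlg μ, q ≤ p ∧ ∀ r ≤ q, μ (r.s \ E) ≠ 0 := by
  refine ⟨⟨p.s \ E, p.meas.diff hE, h⟩, null_diff_of_subset diff_subset, ?_⟩
  intro r hr hr0
  refine r.false_of_disj hr hr0 ?_
  have : (p.s \ E) ∩ E = ∅ := by simp
  change μ ((p.s \ E) ∩ E) = 0
  rw [this]; simp

/-- if densely many conditions below `p` are almost contained in `E` then `p` is -/
theorem null_of_dense {E : Set Ω} (hE : MeasurableSet E) {p : MAlg μ}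
    (h : ∀ q ≤ p, ∃ r ≤ q, μ (r.s \ E) = 0) : μ (p.s \ E) = 0 := by
  by_contra hne
  obtain ⟨q, hq, hq'⟩ := exists_diff hE hne
  obtain ⟨r, hr, hr'⟩ := h q hq
  exact hq' r hr hr'

/-- from an existential statement to a covering -/
theorem null_of_fex {I : Type} {φ : I → Set (MAlg μ)} {F : I → Set Ω} {p : MAlg μ}
    (hm : MeasurableSet (⋃ i, F i)) (h : p ∈ fex φ) (hF : ∀ i, ∀ r ≤ p, r ∈ φ i → μ (r.s \ F i) = 0) :
    μ (p.s \ ⋃ i, F i) = 0 := by
  refine null_of_dense hm fun q hq => ?_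
  obtain ⟨r, hr, i, hi⟩ := mem_fex.1 h q hq
  exact ⟨r, hr, null_diff_trans (hF i r (hr.trans hq) hi)
    (null_diff_of_subset (subset_iUnion F i))⟩

theorem inter_null_of_imp {A B : Set Ω} {c : Prop} (hA : MeasurableSet A) (hB : MeasurableSet B)
    (hc : ¬ c) {p : MAlg μ} (h : ∀ q ≤ p, μ (q.s \ A) = 0 → μ (q.s \ B) = 0 → c) :
    μ (p.s ∩ (A ∩ B)) = 0 := by
  by_contra hne
  exact hc (h (p.inter (A ∩ B) (hA.inter hB) hne) (p.inter_le _ _ _)
    (null_diff_of_subset fun x hx => hx.2.1) (null_diff_of_subset fun x hx => hx.2.2))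

/-- the maximal principle for names of sets of natural numbers -/
theorem exists_mix [IsFiniteMeasure μ] {K : Type} [Countable K] (φ : (K → Set (MAlg μ)) → Set (MAlg μ))
    (hmono : ∀ x, ∀ q ∈ φ x, ∀ r ≤ q, r ∈ φ x)
    (hreg : ∀ x p, (∀ q ≤ p, ∃ r ≤ q, r ∈ φ x) → p ∈ φ x)
    (hext : ∀ x y p, p ∈ φ x → (∀ k, ∀ q ≤ p, q ∈ meets (x k) ↔ q ∈ meets (y k)) → p ∈ φ y)
    {p : MAlg μ} (h : p ∈ fex φ) : ∃ E : K → Set Ω, (∀ k, MeasurableSet (E k)) ∧
      p ∈ φ fun k => cst (E k) := by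
  classical
  obtain ⟨A, hA, hA', hval⟩ := exists_val_aux {r : MAlg μ | ∃ x, r ∈ φ x}
  have hp : μ (p.s \ ⋃ n, A n) = 0 := by
    rw [← hval]
    intro q hq
    obtain ⟨r, hr, x, hx⟩ := mem_fex.1 h q hq
    exact ⟨r, hr, r, ⟨x, hx⟩, le_rfl⟩
  have h1 : ∀ n, ∃ x : K → Set (MAlg μ), ∀ r : MAlg μ, μ (r.s \ A n) = 0 → r ∈ φ x := by
    intro n
    rcases hA' n with h0 | ⟨s, ⟨x, hx⟩, hs⟩
    · refine ⟨fun _ => ∅, fun r hr => ?_⟩
      exfalso
      rw [h0, diff_empty] at hr
      exact r.pos hr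
    · exact ⟨x, fun r hr => hmono x s hx r (null_diff_trans hr hs)⟩
  choose x hx using h1
  have hdm : ∀ n, MeasurableSet (disjointed A n) := fun n => MeasurableSet.disjointed hA n
  refine ⟨fun k => ⋃ n, disjointed A n ∩ val (x n k), fun k =>
    MeasurableSet.iUnion fun n => (hdm n).inter (val_meas _), ?_⟩
  apply hreg
  intro q hq
  have h2 : μ (q.s \ ⋃ n, A n) = 0 := null_diff_trans hq hp
  have h3 : ∃ n, μ (q.s ∩ disjointed A n) ≠ 0 := by
    by_contra hcon
    push Not at hcon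
    apply q.pos
    have h3 : q.s ⊆ (q.s \ ⋃ n, A n) ∪ ⋃ n, q.s ∩ disjointed A n := by
      intro x hx
      by_cases hx' : x ∈ ⋃ n, A n
      · right
        rw [← iUnion_disjointed] at hx'
        obtain ⟨n, hn⟩ := mem_iUnion.1 hx'
        exact mem_iUnion.2 ⟨n, hx, hn⟩
      · exact Or.inl ⟨hx, hx'⟩
    exact measure_mono_null h3 (measure_union_null h2 (measure_iUnion_null hcon))
  obtain ⟨n, hn⟩ := h3
  refine ⟨q.inter _ (hdm n) hn, q.inter_le _ _ _, ?_⟩
  refine hext (x n) _ _ (hx n _ (null_diff_of_subset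
    (inter_subset_right.trans (disjointed_subset A n)))) ?_
  intro k r hr
  have hr1 : μ (r.s \ disjointed A n) = 0 :=
    null_diff_trans hr (null_diff_of_subset inter_subset_right)
  rw [mem_meets, mem_meets_cst (MeasurableSet.iUnion fun n => (hdm n).inter (val_meas _))]
  constructor
  · intro h4
    have : r.s \ (⋃ n, disjointed A n ∩ val (x n k)) ⊆ (r.s \ disjointed A n) ∪ (r.s \ val (x n k)) := by
      rintro y ⟨hy, hy'⟩
      by_cases h5 : y ∈ disjointed A n
      · right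
        refine ⟨hy, fun h6 => hy' (mem_iUnion.2 ⟨n, h5, h6⟩)⟩
      · exact Or.inl ⟨hy, h5⟩
    exact measure_mono_null this (measure_union_null hr1 h4)
  · intro h4
    have : r.s \ val (x n k) ⊆ (r.s \ disjointed A n) ∪
        (r.s \ (⋃ n, disjointed A n ∩ val (x n k))) := by
      rintro y ⟨hy, hy'⟩
      by_cases h5 : y ∈ disjointed A n
      · right
        refine ⟨hy, fun h6 => ?_⟩
        obtain ⟨m, hm, hm'⟩ := mem_iUnion.1 h6
        by_cases hmn : m = n
        · subst hmn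
          exact hy' hm'
        · exact (disjoint_left.1 (disjoint_disjointed A hmn)) hm h5
      · exact Or.inl ⟨hy, h5⟩
    exact measure_mono_null this (measure_union_null hr1 h4)

/-- the countable chain condition -/
theorem ccc [IsFiniteMeasure μ] : CCC (MAlg μ) := by
  intro W hW
  have h1 : (⋃ n : ℕ, {p ∈ W | (n : ℝ≥0∞)⁻¹ < μ p.s}) = W := by
    ext p
    simp only [mem_iUnion, mem_setOf_eq]
    constructor
    · rintro ⟨n, h, -⟩
      exact h
    · intro h
      obtain ⟨n, hn⟩ := ENNReal.exists_inv_nat_lt p.pos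
      exact ⟨n, h, hn⟩
  rw [← h1, Cardinal.mk_le_aleph0_iff]
  apply Set.countable_iUnion
  intro n
  have hdis : ∀ p ∈ W, ∀ q ∈ W, p ≠ q → μ (p.s ∩ q.s) = 0 := by
    intro p hp q hq hne
    by_contra h
    exact hW p hp q hq hne ⟨p.inter q.s q.meas h, p.inter_le _ _ _,
      null_diff_of_subset inter_subset_right⟩
  apply Set.Finite.countable
  have h2 := MeasureTheory.Measure.finite_const_le_meas_of_disjoint_iUnion₀ (μ := μ)
    (ι := {p // p ∈ W}) (ε := (n : ℝ≥0∞)⁻¹) (by simp) (As := fun p => p.1.s)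
    (fun p => p.1.meas.nullMeasurableSet)
    (fun p q hpq => by
      have := hdis p.1 p.2 q.1 q.2 (fun h => hpq (Subtype.ext h))
      exact this) (measure_ne_top μ _)
  have h3 : {p ∈ W | (n : ℝ≥0∞)⁻¹ < μ p.s} ⊆ Subtype.val ''
      {i : {p // p ∈ W} | (n : ℝ≥0∞)⁻¹ ≤ μ i.1.s} := by
    intro p hp
    exact ⟨⟨p, hp.1⟩, hp.2.le, rfl⟩
  exact (h2.image _).subset h3

end

end Pool.Agent.R582.Rand
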