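import Mathlib
import Pool.Agent.R582.Rand.Base

set_option autoImplicit false

/-!
# The fair coin tossing measure on `{0,1}^X`
-/

namespace Pool.Agent.R582.Rand

open Cardinal Set MeasureTheory ProbabilityTheory
open scoped ENNReal

/-- the fair coin tossing measure on `{0, 1}` -/
noncomputable def coin : Measure Bool := (PMF.uniformOfFintype Bool).toMeasure

instance : IsProbabilityMeasure coin := by unfold coin; infer_instance

theorem coin_singleton (b : Bool) : coin {b} = 2⁻¹ := by
  unfold coin
  rw [PMF.toMeasure_apply_singleton _ _ (measurableSet_singleton b)]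
  simp

/-- the product of the fair coin tossing measures on `{0,1}^X` -/
noncomputable def coins (X : Type) : Measure (X → Bool) := Measure.infinitePi fun _ : X => coin

instance (X : Type) : IsProbabilityMeasure (coins X) := by unfold coins; infer_instance

section

variable {X : Type}

/-- the σ-algebra generated by the coordinates in `A` -/
def mA (A : Set X) : MeasurableSpace (X → Bool) :=
  ⨆ a ∈ A, MeasurableSpace.comap (fun ω : X → Bool => ω a) inferInstance

theorem mA_le (A : Set X) : mA A ≤ (inferInstance : MeasurableSpace (X → Bool)) := by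
  refine iSup₂_le fun a _ => ?_
  exact (measurable_pi_apply a).comap_le

theorem mA_mono {A B : Set X} (h : A ⊆ B) : mA A ≤ mA B :=
  biSup_mono h

theorem measurable_eval {A : Set X} {a : X} (ha : a ∈ A) :
    @Measurable _ _ (mA A) _ (fun ω : X → Bool => ω a) := by
  have h : MeasurableSpace.comap (fun ω : X → Bool => ω a) inferInstance ≤ mA A :=
    le_iSup₂_of_le (f := fun a (_ : a ∈ A) =>
      MeasurableSpace.comap (fun ω : X → Bool => ω a) inferInstance) a ha le_rfl
  exact (comap_measurable _).mono h le_rfl

/-- the sets depending on countably many coordinates -/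
def csup (X : Type) : MeasurableSpace (X → Bool) where
  MeasurableSet' E := ∃ C : Set X, C.Countable ∧ MeasurableSet[mA C] E
  measurableSet_empty := ⟨∅, countable_empty, @MeasurableSet.empty _ (mA ∅)⟩
  measurableSet_compl := by
    rintro E ⟨C, hC, h⟩
    exact ⟨C, hC, h.compl⟩
  measurableSet_iUnion := by
    intro f hf
    choose C hC h using hf
    exact ⟨⋃ n, C n, countable_iUnion hC,
      MeasurableSet.iUnion fun n => mA_mono (subset_iUnion C n) _ (h n)⟩

theorem exists_countable {E : Set (X → Bool)} (hE : MeasurableSet E) :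
    ∃ C : Set X, C.Countable ∧ MeasurableSet[mA C] E := by
  have h : (inferInstance : MeasurableSpace (X → Bool)) ≤ csup X := by
    change MeasurableSpace.pi ≤ csup X
    unfold MeasurableSpace.pi
    refine iSup_le fun a => ?_
    rintro _ ⟨t, ht, rfl⟩
    exact ⟨{a}, countable_singleton a, measurable_eval (mem_singleton a) ht⟩
  exact h _ hE

theorem indep_mA {A B : Set X} (h : Disjoint A B) : Indep (mA A) (mA B) (coins X) := by
  have h1 : iIndepFun (fun (a : X) (ω : X → Bool) => ω a) (coins X) :=
    iIndepFun_infinitePi (X := fun (_ : X) (b : Bool) => b) (fun _ => measurable_id)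
  exact indep_iSup_of_disjoint (fun a => (measurable_pi_apply a).comap_le) h1.iIndep h

theorem coins_cyl {m : ℕ} (a : Fin m → X) (ha : Function.Injective a) (s : Fin m → Bool) :
    coins X {ω | ∀ i, ω (a i) = s i} = (2⁻¹ : ℝ≥0∞) ^ m := by
  classical
  have h1 : {ω : X → Bool | ∀ i, ω (a i) = s i} = Set.pi (Finset.univ.image a : Finset X)
      (fun x => {b | ∀ i, a i = x → b = s i}) := by
    ext ω
    simp only [Finset.coe_image, Finset.coe_univ, image_univ, mem_pi, mem_range,
      forall_exists_index]
    constructor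
    · rintro h x i rfl j hj
      rw [← hj]
      exact h j
    · intro h i
      exact h (a i) i rfl i rfl
  rw [h1, coins, Measure.infinitePi_pi _ (fun i _ => MeasurableSet.of_discrete),
    Finset.prod_image (fun x _ y _ h => ha h)]
  have h2 : ∀ i : Fin m, coin {b | ∀ j, a j = a i → b = s j} = 2⁻¹ := by
    intro i
    have : {b | ∀ j, a j = a i → b = s j} = {s i} := by
      ext b
      simp only [mem_singleton_iff]
      constructor
      · intro h
        exact h i rfl
      · rintro rfl j hj
        rw [ha hj]
    rw [this, coin_singleton]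
  rw [Finset.prod_congr rfl fun i _ => h2 i]
  simp

/-- a block of `m` coordinates agrees with an independent value with probability `2 ^ (-m)` -/
theorem coins_match {m : ℕ} (a : Fin m → X) (ha : Function.Injective a) (A : Set X)
    (hA : ∀ i, a i ∉ A) (v : (X → Bool) → Fin m → Bool)
    (hv : ∀ s, MeasurableSet[mA A] {ω | v ω = s}) (B : Set (X → Bool)) (hB : MeasurableSet[mA A] B) :
    coins X (B ∩ {ω | ∀ i, ω (a i) = v ω i}) ≤ coins X B * (2⁻¹ : ℝ≥0∞) ^ m := by
  classical
  have hdis : Disjoint A (range a) := by
    rw [Set.disjoint_left]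
    rintro x hx ⟨i, rfl⟩
    exact hA i hx
  have hind := indep_mA hdis
  have hcyl : ∀ s : Fin m → Bool, MeasurableSet[mA (range a)] {ω : X → Bool | ∀ i, ω (a i) = s i} := by
    intro s
    rw [setOf_forall]
    exact MeasurableSet.iInter fun i => measurable_eval (mem_range_self i)
      (measurableSet_singleton (s i))
  have h1 : B ∩ {ω | ∀ i, ω (a i) = v ω i} = ⋃ s : Fin m → Bool,
      (B ∩ {ω | v ω = s}) ∩ {ω | ∀ i, ω (a i) = s i} := by
    ext ω
    simp only [mem_inter_iff, mem_setOf_eq, mem_iUnion]
    constructor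
    · rintro ⟨h1, h2⟩
      exact ⟨v ω, ⟨h1, rfl⟩, h2⟩
    · rintro ⟨s, ⟨h1, rfl⟩, h2⟩
      exact ⟨h1, h2⟩
  rw [h1]
  refine (measure_iUnion_le _).trans ?_
  have h2 : ∀ s : Fin m → Bool, coins X ((B ∩ {ω | v ω = s}) ∩ {ω | ∀ i, ω (a i) = s i}) =
      coins X (B ∩ {ω | v ω = s}) * (2⁻¹ : ℝ≥0∞) ^ m := by
    intro s
    rw [(Indep_iff _ _ _).1 hind _ _ (hB.inter (hv s)) (hcyl s), coins_cyl a ha]
  rw [tsum_congr h2, ENNReal.tsum_mul_right]
  gcongr
  rw [← measure_iUnion]
  · apply measure_mono
    exact iUnion_subset fun s => inter_subset_left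
  · intro s t hst
    change Disjoint _ _
    rw [Set.disjoint_left]
    rintro ω ⟨-, h1⟩ ⟨-, h2⟩
    exact hst (h1.symm.trans h2)
  · intro s
    exact mA_le A _ (hB.inter (hv s))

end

end Pool.Agent.R582.Rand
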