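import Mathlib
import Pool.Agent.R582.Rand.Base

set_option autoImplicit false

/-!
# Regular sets of conditions
-/

namespace Pool.Agent.R582.Rand

open Set
open Pool.Agent.Helper292.SP (fnot fand fall fimp fiff fex fground meets IsFun mem_fex mem_fimp
  not_fex down_meets meets_cst meets_of_mem IsFun_tot IsFun_fun)
open Pool.Agent.H631R2 (meets_of_dense mem_fiff mem_fiff_meets)

variable {P : Type} [Preorder P]

/-- downward closed -/
def Down (φ : Set P) : Prop := ∀ p ∈ φ, ∀ q ≤ p, q ∈ φ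

/-- regular open -/
def Reg (φ : Set P) : Prop := Down φ ∧ ∀ p, (∀ q ≤ p, ∃ r ≤ q, r ∈ φ) → p ∈ φ

theorem down_fnot (φ : Set P) : Down (fnot φ) := fun _ hp _ hq r hr => hp r (hr.trans hq)

theorem reg_fnot {φ : Set P} (h : Down φ) : Reg (fnot φ) := by
  refine ⟨down_fnot φ, fun p hp q hq hφ => ?_⟩
  obtain ⟨r, hr, hr'⟩ := hp q hq
  exact hr' r le_rfl (h q hφ r hr)

theorem down_fand {φ ψ : Set P} (h1 : Down φ) (h2 : Down ψ) : Down (fand φ ψ) :=
  fun p hp q hq => ⟨h1 p hp.1 q hq, h2 p hp.2 q hq⟩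

theorem reg_fand {φ ψ : Set P} (h1 : Reg φ) (h2 : Reg ψ) : Reg (fand φ ψ) := by
  refine ⟨down_fand h1.1 h2.1, fun p hp => ⟨h1.2 p fun q hq => ?_, h2.2 p fun q hq => ?_⟩⟩
  · obtain ⟨r, hr, h⟩ := hp q hq
    exact ⟨r, hr, h.1⟩
  · obtain ⟨r, hr, h⟩ := hp q hq
    exact ⟨r, hr, h.2⟩

theorem down_fall {ι : Sort*} {φ : ι → Set P} (h : ∀ i, Down (φ i)) : Down (fall φ) :=
  fun p hp q hq i => h i p (hp i) q hq

theorem reg_fall {ι : Sort*} {φ : ι → Set P} (h : ∀ i, Reg (φ i)) : Reg (fall φ) := by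
  refine ⟨down_fall fun i => (h i).1, fun p hp i => (h i).2 p fun q hq => ?_⟩
  obtain ⟨r, hr, h'⟩ := hp q hq
  exact ⟨r, hr, h' i⟩

theorem reg_fimp {φ ψ : Set P} (h : Down φ) : Reg (fimp φ ψ) :=
  reg_fnot (down_fand h (down_fnot ψ))

theorem reg_fex {ι : Sort*} (φ : ι → Set P) : Reg (fex φ) :=
  reg_fnot (down_fall fun _ => down_fnot _)

theorem reg_meets (N : Set P) : Reg (meets N) :=
  ⟨fun _ hp _ hq => down_meets hp hq, fun _ hp => meets_of_dense hp⟩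

theorem reg_fground (c : Prop) : Reg (fground c : Set P) :=
  ⟨fun _ hp _ _ => hp, fun p hp => by
    obtain ⟨r, -, h⟩ := hp p le_rfl
    exact h⟩

/-- modus ponens -/
theorem Reg.mp {φ ψ : Set P} (hψ : Reg ψ) (hφ : Down φ) {p : P} (h : p ∈ fimp φ ψ) (h' : p ∈ φ) :
    p ∈ ψ := by
  apply hψ.2
  intro q hq
  exact mem_fimp.1 h q hq (hφ p h' q hq)

end Pool.Agent.R582.Rand
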