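import Mathlib
import Pool.Agent.R582.Rand.Prod

set_option autoImplicit false

/-!
# The measure theoretic core: no Laver filters after adding more than `𝔠` random reals
-/

namespace Pool.Agent.R582.Rand

open Cardinal Set MeasureTheory ProbabilityTheory
open scoped ENNReal

/-- summing over a thin set -/
theorem sum_thin (y : Set ℕ) (f : ℕ → ℕ) (g : ℕ → ℝ)
    (hthin : ∀ n (T : Finset ℕ), (∀ k ∈ T, k ∈ y ∧ k < f n) → T.card ≤ n + 1)
    (h1 : ∀ k, g k ≤ 1) (hf : ∀ n k, f n ≤ k → g k ≤ (1 / 2 : ℝ) ^ n) (T : Finset ℕ) :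
    (∀ k ∈ T, k ∈ y) → ∑ k ∈ T, g k ≤ 4 - 4 * (1 / 2 : ℝ) ^ T.card := by
  classical
  refine Finset.induction_on_max T ?_ ?_
  · intro _
    simp
  · intro m T hm ih hT
    have hmT : m ∉ T := fun h => lt_irrefl _ (hm m h)
    rw [Finset.sum_insert hmT, Finset.card_insert_of_notMem hmT]
    have h2 := ih fun k hk => hT k (Finset.mem_insert_of_mem hk)
    have h3 : g m ≤ 2 * (1 / 2 : ℝ) ^ T.card := by
      rcases Nat.eq_zero_or_pos T.card with h0 | h0
      · rw [h0]
        have := h1 m
        norm_num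
        linarith
      · obtain ⟨j, hj⟩ := Nat.exists_eq_succ_of_ne_zero h0.ne'
        have h4 : f j ≤ m := by
          by_contra hlt
          push Not at hlt
          have := hthin j (insert m T) (by
            intro k hk
            refine ⟨hT k hk, ?_⟩
            rcases Finset.mem_insert.1 hk with rfl | hk
            · exact hlt
            · exact (hm k hk).trans hlt)
          rw [Finset.card_insert_of_notMem hmT] at this
          omega
        have := hf j m h4
        rw [hj]
        rw [Nat.succ_eq_add_one, pow_succ]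
        linarith
    have h5 : (1 / 2 : ℝ) ^ (T.card + 1) = (1 / 2 : ℝ) ^ T.card * (1 / 2) := pow_succ _ _
    rw [h5]
    linarith

variable {X : Type}

/-- the coordinates supporting countably many measurable sets -/
theorem exists_countable' (E : ℕ → Set (X → Bool)) (hE : ∀ k, MeasurableSet (E k)) :
    ∃ C : Set X, C.Countable ∧ ∀ k, MeasurableSet[mA C] (E k) := by
  choose C hC h using fun k => exists_countable (hE k)
  exact ⟨⋃ k, C k, countable_iUnion hC, fun k => mA_mono (subset_iUnion C k) _ (h k)⟩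

/-- the random partitions -/
noncomputable def rp (e : ℕ × ℕ × ℕ → X) (ω : X → Bool) (n k : ℕ) : ℕ :=
  (Fintype.equivFin (Fin (6 * n + 9) → Bool) fun i => ω (e (n, k, i))).val

theorem rp_lt (e : ℕ × ℕ × ℕ → X) (n : ℕ) : ∃ b, ∀ ω k, rp e ω n k < b :=
  ⟨_, fun ω k => (Fintype.equivFin (Fin (6 * n + 9) → Bool) fun i => ω (e (n, k, i))).isLt⟩

theorem rp_meas (e : ℕ × ℕ × ℕ → X) (n k : ℕ) : Measurable fun ω => rp e ω n k := by
  have h1 : Measurable fun (ω : X → Bool) (i : Fin (6 * n + 9)) => ω (e (n, k, i)) :=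
    measurable_pi_lambda _ fun i => measurable_pi_apply _
  have h2 : Measurable fun v : Fin (6 * n + 9) → Bool =>
    (Fintype.equivFin (Fin (6 * n + 9) → Bool) v).val := measurable_of_countable _
  exact h2.comp h1

/-- two different numbers are in the same piece of the `n`-th random partition -/
def coll (e : ℕ × ℕ × ℕ → X) (n k k' : ℕ) : Set (X → Bool) :=
  {ω | ∀ i : Fin (6 * n + 9), ω (e (n, k, i)) = ω (e (n, k', i))}

theorem coll_of_eq {e : ℕ × ℕ × ℕ → X} {n k k' : ℕ} {ω : X → Bool}
    (h : rp e ω n k = rp e ω n k') : ω ∈ coll e n k k' := by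
  have h1 := (Fintype.equivFin (Fin (6 * n + 9) → Bool)).injective (Fin.ext h)
  exact fun i => congrFun h1 i

theorem coll_meas {e : ℕ × ℕ × ℕ → X} (n k k' : ℕ) :
    MeasurableSet[mA (range e)] (coll e n k k') := by
  unfold coll
  rw [setOf_forall]
  exact MeasurableSet.iInter fun i => measurableSet_eq_fun
    (measurable_eval (mem_range_self (n, k, (i : ℕ)))) (measurable_eval (mem_range_self (n, k', (i : ℕ))))

theorem coll_le {e : ℕ × ℕ × ℕ → X} (he : Function.Injective e) {n k k' : ℕ} (hk : k ≠ k') :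
    coins X (coll e n k k') ≤ (2⁻¹ : ℝ≥0∞) ^ (6 * n + 9) := by
  have h := coins_match (X := X) (m := 6 * n + 9) (fun i => e (n, k, i))
    (fun i j hij => by simpa [Fin.ext_iff] using he hij)
    (range fun i : Fin (6 * n + 9) => e (n, k', (i : ℕ)))
    (by
      rintro i ⟨j, hj⟩
      exact hk (Prod.mk.inj (Prod.mk.inj (he hj)).2).1.symm)
    (fun ω i => ω (e (n, k', i)))
    (by
      intro s
      have : {ω : X → Bool | (fun i : Fin (6 * n + 9) => ω (e (n, k', (i : ℕ)))) = s} =
          ⋂ i : Fin (6 * n + 9), {ω | ω (e (n, k', (i : ℕ))) = s i} := by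
        ext ω
        simp [funext_iff]
      rw [this]
      exact MeasurableSet.iInter fun i => measurable_eval (mem_range_self i)
        (measurableSet_singleton (s i)))
    univ MeasurableSet.univ
  rw [univ_inter, measure_univ, one_mul] at h
  exact h

/-- Let `x k`, for `k : ℕ`, be measurable sets such that, for all points of `q`, the set of all `k`
with `ω ∈ x k` meets at most `n + 1` pieces of the `n`-th random partition. -/
theorem condExp_bound {e : ℕ × ℕ × ℕ → X} (he : Function.Injective e) {A : Set X}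
    (hA : ∀ t, e t ∉ A) (x : ℕ → Set (X → Bool)) (hx : ∀ k, MeasurableSet (x k))
    (hL : ∀ᵐ ω ∂(coins X), ∀ n, ∃ s : Finset ℕ, s.card ≤ n + 1 ∧ ∀ k, ω ∈ x k → rp e ω n k ∈ s)
    (T : Finset ℕ) (n : ℕ) (hT : T.card ^ 3 ≤ 2 ^ (6 * n + 9)) :
    ∀ᵐ ω ∂(coins X), ∑ k ∈ T, ((coins X)[(x k).indicator (fun _ => (1 : ℝ)) | mA A]) ω ≤ n + 2 := by
  classical
  have hle : mA (range e) ≤ (inferInstance : MeasurableSpace (X → Bool)) := mA_le _
  set bad : Set (X → Bool) := ⋃ k ∈ T, ⋃ k' ∈ T.erase k, coll e n k k' with hbad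
  have hbm : MeasurableSet[mA (range e)] bad :=
    Finset.measurableSet_biUnion _ fun k _ => Finset.measurableSet_biUnion _ fun k' _ =>
      coll_meas n k k'
  have hbμ : (coins X).real bad ≤ (T.card : ℝ) ^ 2 * (1 / 2 : ℝ) ^ (6 * n + 9) := by
    have h1 : coins X bad ≤ (T.card : ℝ≥0∞) ^ 2 * (2⁻¹ : ℝ≥0∞) ^ (6 * n + 9) := by
      calc coins X bad ≤ ∑ k ∈ T, coins X (⋃ k' ∈ T.erase k, coll e n k k') :=
            measure_biUnion_finset_le _ _
        _ ≤ ∑ k ∈ T, ∑ k' ∈ T.erase k, coins X (coll e n k k') :=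
            Finset.sum_le_sum fun k _ => measure_biUnion_finset_le _ _
        _ ≤ ∑ k ∈ T, ∑ k' ∈ T.erase k, (2⁻¹ : ℝ≥0∞) ^ (6 * n + 9) :=
            Finset.sum_le_sum fun k _ => Finset.sum_le_sum fun k' hk' =>
              coll_le he (Finset.ne_of_mem_erase hk').symm
        _ ≤ ∑ k ∈ T, ∑ k' ∈ T, (2⁻¹ : ℝ≥0∞) ^ (6 * n + 9) :=
            Finset.sum_le_sum fun k _ => Finset.sum_le_sum_of_subset (Finset.erase_subset _ _)
        _ = (T.card : ℝ≥0∞) ^ 2 * (2⁻¹ : ℝ≥0∞) ^ (6 * n + 9) := by
            simp only [Finset.sum_const, nsmul_eq_mul]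
            ring
    have h2 : (coins X).real bad ≤ ((T.card : ℝ≥0∞) ^ 2 * (2⁻¹ : ℝ≥0∞) ^ (6 * n + 9)).toReal := by
      apply ENNReal.toReal_mono _ h1
      finiteness
    refine h2.trans (le_of_eq ?_)
    rw [ENNReal.toReal_mul, ENNReal.toReal_pow, ENNReal.toReal_pow]
    simp
  have hint : ∀ k, Integrable ((x k).indicator fun _ => (1 : ℝ)) (coins X) := fun k =>
    (integrable_const 1).indicator (hx k)
  have hbi : Integrable (bad.indicator fun _ => (1 : ℝ)) (coins X) :=
    (integrable_const 1).indicator (hle _ hbm)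
  set G : (X → Bool) → ℝ := fun ω => (n + 1 : ℝ) + T.card * bad.indicator (fun _ => (1 : ℝ)) ω
    with hG
  have hGi : Integrable G (coins X) := (integrable_const _).add (hbi.const_mul _)
  have hGm : StronglyMeasurable[mA (range e)] G := by
    apply StronglyMeasurable.add stronglyMeasurable_const
    exact (stronglyMeasurable_const.indicator hbm).const_mul _
  have hFG : (∑ k ∈ T, (x k).indicator fun _ => (1 : ℝ)) ≤ᵐ[coins X] G := by
    filter_upwards [hL] with ω hω
    obtain ⟨s, hs, hs'⟩ := hω n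
    rw [Finset.sum_apply]
    have h1 : ∑ k ∈ T, (x k).indicator (fun _ => (1 : ℝ)) ω =
        ((T.filter fun k => ω ∈ x k).card : ℝ) := by
      rw [Finset.card_filter]
      push_cast
      exact Finset.sum_congr rfl fun k _ => by simp [indicator_apply]
    rw [h1, hG]
    by_cases hb : ω ∈ bad
    · simp only [indicator_of_mem hb, mul_one]
      have : ((T.filter fun k => ω ∈ x k).card : ℝ) ≤ T.card := by
        exact_mod_cast Finset.card_filter_le _ _
      have h2 : (0 : ℝ) ≤ n := Nat.cast_nonneg n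
      linarith
    · simp only [indicator_of_notMem hb, mul_zero, add_zero]
      have h2 : (T.filter fun k => ω ∈ x k).card ≤ s.card := by
        apply Finset.card_le_card_of_injOn (fun k => rp e ω n k)
        · intro k hk
          exact hs' k (Finset.mem_filter.1 hk).2
        · intro k hk k' hk' heq
          by_contra hne
          apply hb
          rw [hbad]
          simp only [mem_iUnion]
          exact ⟨k, (Finset.mem_filter.1 hk).1, k', Finset.mem_erase.2
            ⟨fun h => hne h.symm, (Finset.mem_filter.1 hk').1⟩, coll_of_eq heq⟩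
      exact_mod_cast h2.trans hs
  have hdis : Disjoint (range e) A := by
    rw [Set.disjoint_left]
    rintro _ ⟨t, rfl⟩ h
    exact hA t h
  have h1 := condExp_finsetSum (μ := coins X) (s := T) (fun k _ => hint k) (mA A)
  have h2 := condExp_mono (m := mA A) (integrable_finsetSum' T fun k _ => hint k) hGi hFG
  have h3 := condExp_indep_eq hle (mA_le A) hGm (indep_mA hdis)
  filter_upwards [h1, h2, h3] with ω h1 h2 h3
  rw [h1, h3, Finset.sum_apply] at h2
  refine h2.trans ?_
  have h4 : ∫ ω, G ω ∂(coins X) = (n + 1 : ℝ) + T.card * (coins X).real bad := by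
    rw [hG, integral_add (integrable_const _) (hbi.const_mul _), integral_const_mul,
      integral_indicator (hle _ hbm)]
    simp
  rw [h4]
  have h5 : (T.card : ℝ) * (coins X).real bad ≤ T.card * ((T.card : ℝ) ^ 2 *
      (1 / 2 : ℝ) ^ (6 * n + 9)) := by gcongr
  have h6 : (T.card : ℝ) * ((T.card : ℝ) ^ 2 * (1 / 2 : ℝ) ^ (6 * n + 9)) ≤ 1 := by
    have h7 : ((T.card : ℝ)) ^ 3 ≤ 2 ^ (6 * n + 9) := by exact_mod_cast hT
    have h8 : (T.card : ℝ) * ((T.card : ℝ) ^ 2 * (1 / 2 : ℝ) ^ (6 * n + 9)) =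
        (T.card : ℝ) ^ 3 / 2 ^ (6 * n + 9) := by
      rw [one_div, inv_pow]
      ring
    rw [h8]
    exact div_le_one_of_le₀ h7 (by positivity)
  linarith

end Pool.Agent.R582.Rand
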