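import Mathlib
import Pool.Agent.R582.Rand.LaverCore

set_option autoImplicit false

/-!
# The measure theoretic core, continued
-/

namespace Pool.Agent.R582.Rand

open Cardinal Set MeasureTheory ProbabilityTheory Filter
open scoped ENNReal Topology

variable {X : Type}

theorem core (hX : Cardinal.continuum < #X) (q : Set (X → Bool)) (hq : MeasurableSet q)
    (hq0 : coins X q ≠ 0) (U : Set (ℕ → Set (X → Bool)))
    (hm : ∀ x ∈ U, ∀ k, MeasurableSet (x k))
    (P1 : ∀ x ∈ U, ∀ y ∈ U, ∀ᵐ ω ∂(coins X), ω ∈ q → {k | ω ∈ x k ∧ ω ∈ y k}.Infinite)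
    (P2 : ∀ h : (X → Bool) → ℕ → ℕ → ℕ, (∀ n k, Measurable fun ω => h ω n k) →
      (∀ n, ∃ b, ∀ ω k, h ω n k < b) → ∃ x ∈ U, ∀ᵐ ω ∂(coins X), ω ∈ q →
        ∀ n, ∃ s : Finset ℕ, s.card ≤ n + 1 ∧ ∀ k, ω ∈ x k → h ω n k ∈ s) : False := by
  classical
  set μ := coins X with hμ
  -- thin elements
  have hA1 : ∀ f : ℕ → ℕ, ∃ x ∈ U, ∀ᵐ ω ∂μ, ω ∈ q → ∀ n (T : Finset ℕ),
      (∀ k ∈ T, ω ∈ x k ∧ k < f n) → T.card ≤ n + 1 := by
    intro f
    obtain ⟨x, hx, h⟩ := P2 (fun _ n k => min k (f n)) (fun n k => measurable_const)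
      (fun n => ⟨f n + 1, fun ω k => by omega⟩)
    refine ⟨x, hx, ?_⟩
    filter_upwards [h] with ω hω hωq n T hT
    obtain ⟨s, hs, hs'⟩ := hω hωq n
    refine le_trans (Finset.card_le_card ?_) hs
    intro k hk
    have h1 := hs' k (hT k hk).1
    rwa [min_eq_left (hT k hk).2.le] at h1
  choose y hyU hy using hA1
  choose C hC hCm using fun f => exists_countable' (y f) (hm _ (hyU f))
  set A : Set X := ⋃ f, C f with hAdef
  have hAcard : #A ≤ Cardinal.continuum := by
    rw [hAdef]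
    refine (Cardinal.mk_iUnion_le_sum_mk).trans ?_
    refine (Cardinal.sum_le_sum _ (fun _ => ℵ₀) fun f => ?_).trans ?_
    · exact Cardinal.mk_le_aleph0_iff.2 (hC f)
    · rw [Cardinal.sum_const']
      simp
  have hinf : (Aᶜ : Set X).Infinite := by
    intro hfin
    have h1 : #X ≤ Cardinal.continuum := by
      rw [← Cardinal.mk_sum_compl A]
      exact Cardinal.add_le_of_le Cardinal.aleph0_le_continuum hAcard
        ((Cardinal.lt_aleph0_iff_set_finite.2 hfin).le.trans Cardinal.aleph0_le_continuum)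
    exact absurd h1 (not_le.2 hX)
  haveI := hinf.to_subtype
  let e : ℕ × ℕ × ℕ → X := fun t => (Infinite.natEmbedding (Aᶜ : Set X) (Encodable.encode t)).1
  have he : Function.Injective e := by
    intro a b h
    exact Encodable.encode_injective ((Infinite.natEmbedding _).injective (Subtype.ext h))
  have heA : ∀ t, e t ∉ A := fun t => (Infinite.natEmbedding (Aᶜ : Set X) (Encodable.encode t)).2
  obtain ⟨x, hxU, hx⟩ := P2 (rp e) (rp_meas e) (rp_lt e)
  set x' : ℕ → Set (X → Bool) := fun k => x k ∩ q with hx'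
  have hx'm : ∀ k, MeasurableSet (x' k) := fun k => (hm x hxU k).inter hq
  set M : ℕ → (X → Bool) → ℝ := fun k => μ[(x' k).indicator (fun _ => (1 : ℝ)) | mA A] with hM
  have hMm : ∀ k, StronglyMeasurable[mA A] (M k) := fun k => stronglyMeasurable_condExp
  have hint : ∀ k, Integrable ((x' k).indicator fun _ => (1 : ℝ)) μ := fun k =>
    (integrable_const 1).indicator (hx'm k)
  have hM0 : ∀ᵐ ω ∂μ, ∀ k, 0 ≤ M k ω := by
    rw [ae_all_iff]
    intro k
    exact condExp_nonneg (Eventually.of_forall fun ω => indicator_nonneg (fun _ _ => zero_le_one) ω)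
  have hM1 : ∀ᵐ ω ∂μ, ∀ k, M k ω ≤ 1 := by
    rw [ae_all_iff]
    intro k
    have h1 := condExp_mono (m := mA A) (hint k) (integrable_const (1 : ℝ)) (μ := μ)
      (Eventually.of_forall fun ω => indicator_le_self' (fun _ _ => zero_le_one) ω)
    rw [condExp_const (mA_le A)] at h1
    exact h1
  have hbound : ∀ᵐ ω ∂μ, ∀ (T : Finset ℕ) (n : ℕ), T.card ^ 3 ≤ 2 ^ (6 * n + 9) →
      ∑ k ∈ T, M k ω ≤ n + 2 := by
    rw [ae_all_iff]
    intro T
    rw [ae_all_iff]
    intro n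
    by_cases hT : T.card ^ 3 ≤ 2 ^ (6 * n + 9)
    · have h1 := condExp_bound he heA x' hx'm (by
        filter_upwards [hx] with ω hω n
        by_cases hωq : ω ∈ q
        · obtain ⟨s, hs, hs'⟩ := hω hωq n
          exact ⟨s, hs, fun k hk => hs' k hk.1⟩
        · exact ⟨∅, by simp, fun k hk => absurd hk.2 hωq⟩) T n hT
      filter_upwards [h1] with ω h _
      exact h
    · exact Eventually.of_forall fun ω h => absurd h hT
  have hfin : ∀ᵐ ω ∂μ, ∀ i : ℕ, ∃ m, ∀ k, m ≤ k → M k ω ≤ (1 / 2 : ℝ) ^ i := by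
    filter_upwards [hbound] with ω hω i
    by_contra hcon
    push Not at hcon
    have hinf : {k | (1 / 2 : ℝ) ^ i < M k ω}.Infinite := by
      intro hfin
      obtain ⟨b, hb⟩ := hfin.bddAbove
      obtain ⟨k, hk, hk'⟩ := hcon (b + 1)
      have := hb hk'
      omega
    obtain ⟨T, hT, hTc⟩ := hinf.exists_subset_card_eq (2 ^ i * (i + 3))
    have h1 := hω T i (by
      rw [hTc]
      have h2 : i + 3 ≤ 2 ^ (i + 3) := Nat.lt_two_pow_self.le
      calc (2 ^ i * (i + 3)) ^ 3 ≤ (2 ^ i * 2 ^ (i + 3)) ^ 3 := by gcongr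
        _ = 2 ^ (6 * i + 9) := by
          rw [← pow_add, ← pow_mul]
          congr 1
          ring)
    have h2 : ∑ k ∈ T, (1 / 2 : ℝ) ^ i ≤ ∑ k ∈ T, M k ω :=
      Finset.sum_le_sum fun k hk => le_of_lt (hT hk)
    rw [Finset.sum_const, hTc, nsmul_eq_mul] at h2
    push_cast at h2
    have h3 : (2 : ℝ) ^ i * (i + 3) * (1 / 2) ^ i = i + 3 := by
      rw [mul_comm ((2 : ℝ) ^ i), mul_assoc, ← mul_pow]
      norm_num
    rw [h3] at h2
    linarith
  -- choice of `f`
  have hsmall : ∀ i : ℕ, ∀ ε : ℝ≥0∞, ε ≠ 0 → ∃ m, μ {ω | ∃ k, m ≤ k ∧ (1 / 2 : ℝ) ^ i < M k ω} < ε := by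
    intro i ε hε
    have h1 : Tendsto (fun m : ℕ => μ {ω | ∃ k, m ≤ k ∧ (1 / 2 : ℝ) ^ i < M k ω}) atTop
        (𝓝 (μ (⋂ m : ℕ, {ω | ∃ k, m ≤ k ∧ (1 / 2 : ℝ) ^ i < M k ω}))) := by
      apply tendsto_measure_iInter_atTop
      · intro m
        have : {ω | ∃ k, m ≤ k ∧ (1 / 2 : ℝ) ^ i < M k ω} =
            ⋃ k, ⋃ _ : m ≤ k, {ω | (1 / 2 : ℝ) ^ i < M k ω} := by
          ext ω; simp
        rw [this]
        exact (MeasurableSet.iUnion fun k => MeasurableSet.iUnion fun _ =>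
          measurableSet_lt measurable_const
            ((hMm k).measurable.mono (mA_le A) le_rfl)).nullMeasurableSet
      · intro m m' hmm ω
        rintro ⟨k, hk, h⟩
        exact ⟨k, hmm.trans hk, h⟩
      · exact ⟨0, measure_ne_top _ _⟩
    have h2 : μ (⋂ m : ℕ, {ω | ∃ k, m ≤ k ∧ (1 / 2 : ℝ) ^ i < M k ω}) = 0 := by
      refine measure_mono_null ?_ hfin
      intro ω hω hcon
      obtain ⟨m, hm⟩ := hcon i
      obtain ⟨k, hk, hk'⟩ := mem_iInter.1 hω m
      exact absurd (hm k hk) (not_le.2 hk')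
    rw [h2] at h1
    obtain ⟨m, hm⟩ := (h1.eventually_lt_const (pos_iff_ne_zero.2 hε)).exists
    exact ⟨m, hm⟩
  obtain ⟨ε, hε0, hεs⟩ := ENNReal.exists_pos_sum_of_countable' hq0 ℕ
  choose f hf using fun i => hsmall i (ε i) (hε0 i).ne'
  -- the good set
  set Y : Set (X → Bool) := {ω | ∀ n (T : Finset ℕ), (∀ k ∈ T, ω ∈ y f k ∧ k < f n) →
    T.card ≤ n + 1} with hY
  set Z : Set (X → Bool) := {ω | ∀ k, 0 ≤ M k ω ∧ M k ω ≤ 1} with hZ
  set Q : Set (X → Bool) := {ω | ∀ i k, f i ≤ k → M k ω ≤ (1 / 2 : ℝ) ^ i} with hQ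
  have hyfm : ∀ k, MeasurableSet[mA A] (y f k) := fun k =>
    mA_mono (subset_iUnion C f) _ (hCm f k)
  have hYm : MeasurableSet[mA A] Y := by
    have : Y = ⋂ n : ℕ, ⋂ T : Finset ℕ, ⋂ _ : ¬ T.card ≤ n + 1, ⋃ k ∈ T,
        ({ω | ω ∈ y f k ∧ k < f n}ᶜ : Set (X → Bool)) := by
      ext ω
      simp only [hY, mem_setOf_eq, mem_iInter, mem_iUnion, mem_compl_iff]
      constructor
      · intro h n T hT
        by_contra hcon
        push Not at hcon
        exact hT (h n T hcon)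
      · intro h n T hT
        by_contra hcon
        obtain ⟨k, hk, hk'⟩ := h n T hcon
        exact hk' (hT k hk)
    rw [this]
    refine MeasurableSet.iInter fun n => MeasurableSet.iInter fun T => MeasurableSet.iInter fun _ =>
      Finset.measurableSet_biUnion _ fun k _ => MeasurableSet.compl ?_
    by_cases hk : k < f n
    · have : {ω | ω ∈ y f k ∧ k < f n} = y f k := by ext ω; simp [hk]
      rw [this]
      exact hyfm k
    · have : {ω | ω ∈ y f k ∧ k < f n} = ∅ := by ext ω; simp [hk]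
      rw [this]
      exact @MeasurableSet.empty _ (mA A)
  have hZm : MeasurableSet[mA A] Z := by
    rw [hZ, setOf_forall]
    refine MeasurableSet.iInter fun k => MeasurableSet.inter (s₁ := {ω | 0 ≤ M k ω})
      (s₂ := {ω | M k ω ≤ 1}) ?_ ?_
    · exact @measurableSet_le _ _ _ _ _ (mA A) _ _ _ _ _ measurable_const (hMm k).measurable
    · exact @measurableSet_le _ _ _ _ _ (mA A) _ _ _ _ _ (hMm k).measurable measurable_const
  have hQm : MeasurableSet[mA A] Q := by
    rw [hQ, setOf_forall]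
    refine MeasurableSet.iInter fun i => ?_
    rw [setOf_forall]
    refine MeasurableSet.iInter fun k => ?_
    rw [setOf_forall]
    refine MeasurableSet.iInter fun _ => ?_
    exact @measurableSet_le _ _ _ _ _ (mA A) _ _ _ _ _ (hMm k).measurable measurable_const
  have hQc : μ Qᶜ < μ q := by
    have h1 : Qᶜ ⊆ ⋃ i, {ω | ∃ k, f i ≤ k ∧ (1 / 2 : ℝ) ^ i < M k ω} := by
      intro ω hω
      simp only [hQ, mem_compl_iff, mem_setOf_eq, not_forall, not_le] at hω
      obtain ⟨i, k, hk, h⟩ := hω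
      exact mem_iUnion.2 ⟨i, k, hk, h⟩
    calc μ Qᶜ ≤ μ (⋃ i, {ω | ∃ k, f i ≤ k ∧ (1 / 2 : ℝ) ^ i < M k ω}) := measure_mono h1
      _ ≤ ∑' i, μ {ω | ∃ k, f i ≤ k ∧ (1 / 2 : ℝ) ^ i < M k ω} := measure_iUnion_le _
      _ ≤ ∑' i, ε i := ENNReal.tsum_le_tsum fun i => (hf i).le
      _ < μ q := hεs
  set R : Set (X → Bool) := Q ∩ (Y ∩ Z) with hR
  have hRm : MeasurableSet[mA A] R := hQm.inter (hYm.inter hZm)
  -- pointwise bound
  have hpt : ∀ ω ∈ R, ∀ K : ℕ, ∑ k ∈ Finset.range K, (y f k).indicator (M k) ω ≤ 4 := by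
    rintro ω ⟨hωQ, hωY, hωZ⟩ K
    have h1 : ∑ k ∈ Finset.range K, (y f k).indicator (M k) ω =
        ∑ k ∈ (Finset.range K).filter (fun k => ω ∈ y f k), M k ω := by
      rw [Finset.sum_filter]
      exact Finset.sum_congr rfl fun k _ => by simp [indicator_apply]
    rw [h1]
    refine (sum_thin {k | ω ∈ y f k} f (fun k => M k ω) (fun n T hT => hωY n T hT)
      (fun k => (hωZ k).2) (fun n k hk => hωQ n k hk) _ (fun k hk => (Finset.mem_filter.1 hk).2)).trans ?_
    exact sub_le_self _ (by positivity)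
  -- the sum of the measures
  have hsum : ∀ K : ℕ, ∑ k ∈ Finset.range K, μ.real ((R ∩ y f k) ∩ x' k) ≤ 4 := by
    intro K
    have h1 : ∀ k, μ.real ((R ∩ y f k) ∩ x' k) = ∫ ω in R, (y f k).indicator (M k) ω ∂μ := by
      intro k
      have h2 : ∫ ω in R, (y f k).indicator (M k) ω ∂μ = ∫ ω in R ∩ y f k, M k ω ∂μ := by
        rw [setIntegral_indicator (mA_le A _ (hyfm k))]
      rw [h2, hM, setIntegral_condExp (mA_le A) (hint k) (hRm.inter (hyfm k)),
        setIntegral_indicator (hx'm k)]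
      simp [Measure.real]
    rw [Finset.sum_congr rfl fun k _ => h1 k, ← integral_finsetSum]
    · have h3 : ∫ ω in R, ∑ k ∈ Finset.range K, (y f k).indicator (M k) ω ∂μ ≤
          ∫ ω in R, (4 : ℝ) ∂μ := by
        apply setIntegral_mono_on
        · exact integrable_finsetSum _ fun k _ =>
            (integrable_condExp.indicator (mA_le A _ (hyfm k))).integrableOn
        · exact integrableOn_const (measure_ne_top _ _)
        · exact mA_le A _ hRm
        · exact fun ω hω => hpt ω hω K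
      refine h3.trans ?_
      rw [setIntegral_const, smul_eq_mul]
      have : μ.real R ≤ 1 := measureReal_le_one
      linarith
    · intro k _
      exact (integrable_condExp.indicator (mA_le A _ (hyfm k))).integrableOn
  have hsum' : ∑' k, μ ((R ∩ y f k) ∩ x' k) ≠ ∞ := by
    have h1 : ∑' k, μ ((R ∩ y f k) ∩ x' k) ≤ ENNReal.ofReal 4 := by
      rw [ENNReal.tsum_eq_iSup_nat]
      apply iSup_le
      intro K
      have h2 : ∑ k ∈ Finset.range K, μ ((R ∩ y f k) ∩ x' k) =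
          ENNReal.ofReal (∑ k ∈ Finset.range K, μ.real ((R ∩ y f k) ∩ x' k)) := by
        rw [ENNReal.ofReal_sum_of_nonneg fun k _ => measureReal_nonneg]
        exact Finset.sum_congr rfl fun k _ => (ofReal_measureReal (measure_ne_top _ _)).symm
      rw [h2]
      exact ENNReal.ofReal_le_ofReal (hsum K)
    exact ne_top_of_le_ne_top ENNReal.ofReal_ne_top h1
  have hBC := ae_eventually_notMem hsum'
  -- the contradiction
  have h1 := P1 x hxU (y f) (hyU f)
  have h2 : ∀ᵐ ω ∂μ, ω ∈ q → ω ∉ Q := by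
    filter_upwards [hBC, h1, hy f, hM0, hM1] with ω hω1 hω2 hω3 hω4 hω5 hωq hωQ
    have hωR : ω ∈ R := ⟨hωQ, hω3 hωq, fun k => ⟨hω4 k, hω5 k⟩⟩
    obtain ⟨K, hK⟩ := eventually_atTop.1 hω1
    refine hω2 hωq ((Set.finite_lt_nat K).subset ?_)
    rintro k ⟨hk1, hk2⟩
    by_contra hlt
    simp only [mem_setOf_eq, not_lt] at hlt
    exact hK k hlt ⟨⟨hωR, hk2⟩, hk1, hωq⟩
  have h3 : μ q ≤ μ Qᶜ := by
    apply measure_mono_ae
    filter_upwards [h2] with ω hω hωq
    exact hω hωq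
  exact absurd h3 (not_le.2 hQc)

end Pool.Agent.R582.Rand
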