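import Mathlib
import Pool.Agent.R582.Rand.Reg
import Pool.Agent.R582.Rand.LaverMain

set_option autoImplicit false

/-!
# Laver ultrafilters in the forcing language
-/

namespace Pool.Agent.R582.Rand

open Cardinal Set MeasureTheory Filter
open scoped ENNReal
open Pool.Agent.Helper292.SP (fnot fand fall fimp fiff fex fground meets IsFun mem_fex mem_fimp
  not_fex down_meets meets_cst meets_of_mem IsFun_tot IsFun_fun)
open Pool.Agent.H631R2 (CCC NoOnto PowLE meets_of_dense mem_fiff mem_fiff_meets)

section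

variable {P : Type} [Preorder P]

/-- The names `x` and `y` for sets of natural numbers name the same set. -/
def Same (x y : ℕ → Set P) : Set P := fall fun k : ℕ => fiff (meets (x k)) (meets (y k))

/-- A name `U` for a family of sets of natural numbers attaches to each name `y` for a set of
natural numbers a set `U y` of conditions; `y` is put into the family if the generic filter meets
`U y`. The set named by `x` belongs to the family named by `U`. -/
def In (U : (ℕ → Set P) → Set P) (x : ℕ → Set P) : Set P :=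
  fex fun y : ℕ → Set P => fand (meets (U y)) (Same x y)

/-- `U` names a non-principal ultrafilter on `ℕ`: it is closed under supersets and under
intersections of two sets, contains a set if and only if it does not contain its complement, and
all its elements are infinite. -/
def IsUltrafilter (U : (ℕ → Set P) → Set P) : Set P :=
  fand (fall fun x : ℕ → Set P => fall fun y : ℕ → Set P =>
      fimp (fand (In U x) (fall fun k : ℕ => fimp (meets (x k)) (meets (y k)))) (In U y))
    (fand (fall fun x : ℕ → Set P => fall fun y : ℕ → Set P => fall fun z : ℕ → Set P =>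
        fimp (fand (In U x) (fand (In U y)
          (fall fun k : ℕ => fiff (meets (z k)) (fand (meets (x k)) (meets (y k)))))) (In U z))
      (fand (fall fun x : ℕ → Set P => fall fun y : ℕ → Set P =>
          fimp (fall fun k : ℕ => fiff (meets (y k)) (fnot (meets (x k))))
            (fiff (In U y) (fnot (In U x))))
        (fall fun x : ℕ → Set P => fimp (In U x) (fall fun m : ℕ => fex fun k : ℕ =>
          fand (fground (m ≤ k)) (meets (x k))))))

/-- For every `n`, `h n` is a partition of `ℕ` into finitely many pieces, given as a function from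
`ℕ` to `ℕ` with bounded range (its fibres are the pieces). -/
def IsPartitions (h : ℕ → ℕ → ℕ → Set P) : Set P :=
  fall fun n : ℕ => fand (IsFun (h n)) (fex fun b : ℕ => fall fun k : ℕ => fall fun a : ℕ =>
    fimp (meets (h n k a)) (fground (a < b)))

/-- For every `n`, the set `x` meets at most `n + 1` pieces of the partition `h n`. -/
def MeetsFew (h : ℕ → ℕ → ℕ → Set P) (x : ℕ → Set P) : Set P :=
  fall fun n : ℕ => fex fun s : Finset ℕ => fand (fground (s.card ≤ n + 1))
    (fall fun k : ℕ => fall fun a : ℕ => fimp (fand (meets (x k)) (meets (h n k a)))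
      (fground (a ∈ s)))

/-- `U` names a Laver ultrafilter. -/
def IsLaver (U : (ℕ → Set P) → Set P) : Set P :=
  fand (IsUltrafilter U) (fall fun h : ℕ → ℕ → ℕ → Set P => fimp (IsPartitions h)
    (fex fun x : ℕ → Set P => fand (In U x) (MeetsFew h x)))

theorem down_partitions (h : ℕ → ℕ → ℕ → Set P) : Down (IsPartitions h) := by
  refine down_fall fun n => down_fand (down_fand (down_fall fun _ => (reg_fex _).1)
    (down_fall fun _ => down_fall fun _ => down_fall fun _ =>
      (reg_fimp (down_fand (reg_meets _).1 (reg_meets _).1)).1)) (reg_fex _).1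

theorem reg_in (U : (ℕ → Set P) → Set P) (x : ℕ → Set P) : Reg (In U x) := reg_fex _

theorem reg_meetsFew (h : ℕ → ℕ → ℕ → Set P) (x : ℕ → Set P) : Reg (MeetsFew h x) :=
  reg_fall fun _ => reg_fex _

theorem in_ext (U : (ℕ → Set P) → Set P) {x y : ℕ → Set P} {p : P} (hp : p ∈ In U x)
    (h : ∀ k, ∀ q ≤ p, q ∈ meets (x k) ↔ q ∈ meets (y k)) : p ∈ In U y := by
  refine mem_fex.2 fun q hq => ?_
  obtain ⟨r, hr, z, hz, hz'⟩ := mem_fex.1 hp q hq
  refine ⟨r, hr, z, hz, fun k => mem_fiff_meets.2 fun s hs => ?_⟩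
  rw [← h k s (hs.trans (hr.trans hq))]
  exact mem_fiff_meets.1 (hz' k) s hs

theorem meetsFew_ext (h : ℕ → ℕ → ℕ → Set P) {x y : ℕ → Set P} {p : P} (hp : p ∈ MeetsFew h x)
    (hxy : ∀ k, ∀ q ≤ p, q ∈ meets (x k) ↔ q ∈ meets (y k)) : p ∈ MeetsFew h y := by
  intro n
  refine mem_fex.2 fun q hq => ?_
  obtain ⟨r, hr, s, hs, hs'⟩ := mem_fex.1 (hp n) q hq
  refine ⟨r, hr, s, hs, fun k a => mem_fimp.2 fun t ht htm => ?_⟩
  exact mem_fimp.1 (hs' k a) t ht ⟨(hxy k t (ht.trans (hr.trans hq))).2 htm.1, htm.2⟩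

end

variable {X : Type}

theorem ae_of_null {Ω : Type} [MeasurableSpace Ω] {μ : Measure Ω} {q E : Set Ω}
    (h : μ (q \ E) = 0) : ∀ᵐ ω ∂μ, ω ∈ q → ω ∈ E := by
  rw [ae_iff]
  refine measure_mono_null ?_ h
  intro ω hω
  simp only [mem_setOf_eq, Classical.not_imp] at hω
  exact hω

/-- Adding more than `𝔠` random reals: there are no Laver ultrafilters. -/
theorem no_laver (hX : Cardinal.continuum < #X) (p : MAlg (coins X)) :
    p ∈ fnot (fex fun U : (ℕ → Set (MAlg (coins X))) → Set (MAlg (coins X)) => IsLaver U) := by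
  refine not_fex fun q _ U hU => ?_
  obtain ⟨⟨-, hint, -, hinf⟩, hL⟩ := hU
  refine core hX q.s q.meas q.pos {x | (∀ k, MeasurableSet (x k)) ∧ q ∈ In U fun k => cst (x k)}
    (fun x hx => hx.1) ?_ ?_
  · rintro x ⟨hx, hxU⟩ y ⟨hy, hyU⟩
    have h1 : q ∈ In U fun k => cst (x k ∩ y k) := by
      refine (reg_in U _).mp ?_ (hint (fun k => cst (x k)) (fun k => cst (y k))
        (fun k => cst (x k ∩ y k))) ⟨hxU, hyU, ?_⟩
      · exact down_fand (reg_in U _).1 (down_fand (reg_in U _).1 (down_fall fun k =>
          down_fand (reg_fimp (reg_meets _).1).1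
            (reg_fimp (down_fand (reg_meets _).1 (reg_meets _).1)).1))
      · intro k
        rw [mem_fiff]
        refine ⟨fun r _ hr => ⟨r, le_rfl, ?_, ?_⟩, fun r _ hr => ⟨r, le_rfl, ?_⟩⟩
        · rw [mem_meets_cst ((hx k).inter (hy k))] at hr
          rw [mem_meets_cst (hx k)]
          exact null_diff_trans hr (null_diff_of_subset inter_subset_left)
        · rw [mem_meets_cst ((hx k).inter (hy k))] at hr
          rw [mem_meets_cst (hy k)]
          exact null_diff_trans hr (null_diff_of_subset inter_subset_right)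
        · obtain ⟨h1, h2⟩ := hr
          rw [mem_meets_cst (hx k)] at h1
          rw [mem_meets_cst (hy k)] at h2
          rw [mem_meets_cst ((hx k).inter (hy k)), diff_inter]
          exact measure_union_null h1 h2
    have h2 : ∀ m : ℕ, coins X (q.s \ ⋃ k, {ω | m ≤ k ∧ ω ∈ x k ∧ ω ∈ y k}) = 0 := by
      intro m
      have hmeas : ∀ k, MeasurableSet {ω | m ≤ k ∧ ω ∈ x k ∧ ω ∈ y k} := by
        intro k
        by_cases hk : m ≤ k
        · have : {ω | m ≤ k ∧ ω ∈ x k ∧ ω ∈ y k} = x k ∩ y k := by
            ext ω; simp [hk]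
          rw [this]
          exact (hx k).inter (hy k)
        · have : {ω | m ≤ k ∧ ω ∈ x k ∧ ω ∈ y k} = ∅ := by
            ext ω; simp [hk]
          rw [this]
          exact MeasurableSet.empty
      refine null_of_fex (MeasurableSet.iUnion hmeas)
        ((reg_fall fun _ => reg_fex _).mp (reg_in U _).1 (hinf _) h1 m) ?_
      rintro k r - ⟨hmk, hr⟩
      rw [mem_meets_cst ((hx k).inter (hy k))] at hr
      exact null_diff_trans hr (null_diff_of_subset fun ω hω => ⟨hmk, hω.1, hω.2⟩)
    have h3 : ∀ᵐ ω ∂(coins X), ∀ m : ℕ, ω ∈ q.s → ω ∈ ⋃ k, {ω | m ≤ k ∧ ω ∈ x k ∧ ω ∈ y k} := by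
      rw [ae_all_iff]
      exact fun m => ae_of_null (h2 m)
    filter_upwards [h3] with ω hω hωq hfin
    obtain ⟨b, hb⟩ := hfin.bddAbove
    obtain ⟨k, hk, hk1, hk2⟩ := mem_iUnion.1 (hω (b + 1) hωq)
    have : k ≤ b := hb ⟨hk1, hk2⟩
    omega
  · intro h hmeas hbd
    have hm' : ∀ n k a, MeasurableSet {ω | h ω n k = a} := fun n k a =>
      hmeas n k (measurableSet_singleton a)
    set H : ℕ → ℕ → ℕ → Set (MAlg (coins X)) := fun n k a => cst {ω | h ω n k = a} with hH
    have hpart : q ∈ IsPartitions H := by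
      intro n
      refine ⟨⟨fun k => mem_fex.2 fun r _ => ?_, fun k a a' => mem_fimp.2 fun r _ hr => ?_⟩,
        mem_fex.2 fun r _ => ?_⟩
      · -- totality
        have h1 : ∃ a, coins X (r.s ∩ {ω | h ω n k = a}) ≠ 0 := by
          by_contra hcon
          push Not at hcon
          apply r.pos
          have : r.s ⊆ ⋃ a, r.s ∩ {ω | h ω n k = a} := fun ω hω =>
            mem_iUnion.2 ⟨h ω n k, hω, rfl⟩
          exact measure_mono_null this (measure_iUnion_null hcon)
        obtain ⟨a, ha⟩ := h1
        refine ⟨r.inter _ (hm' n k a) ha, r.inter_le _ _ _, a, ?_⟩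
        rw [mem_meets_cst (hm' n k a)]
        exact null_diff_of_subset inter_subset_right
      · obtain ⟨h1, h2⟩ := hr
        rw [mem_meets_cst (hm' n k a)] at h1
        rw [mem_meets_cst (hm' n k a')] at h2
        by_contra hcon
        push Not at hcon
        have hne : a ≠ a' := hcon r le_rfl
        refine r.false_of_disj h1 h2 ?_
        have : {ω | h ω n k = a} ∩ {ω | h ω n k = a'} = ∅ := by
          ext ω
          simp only [mem_inter_iff, mem_setOf_eq, mem_empty_iff_false, iff_false, not_and]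
          intro h1 h2
          exact hne (h1.symm.trans h2)
        rw [this]; simp
      · obtain ⟨b, hb⟩ := hbd n
        refine ⟨r, le_rfl, b, fun k a => mem_fimp.2 fun s _ hs => ?_⟩
        rw [mem_meets_cst (hm' n k a)] at hs
        refine ⟨s, le_rfl, ?_⟩
        change a < b
        by_contra hab
        apply s.pos
        have : s.s ⊆ s.s \ {ω | h ω n k = a} := by
          intro ω hω
          refine ⟨hω, fun h1 => hab ?_⟩
          have h2 : h ω n k = a := h1
          rw [← h2]
          exact hb ω k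
        exact measure_mono_null this hs
    have h1 : q ∈ fex fun x : ℕ → Set (MAlg (coins X)) => fand (In U x) (MeetsFew H x) :=
      (reg_fex _).mp (down_partitions H) (hL H) hpart
    obtain ⟨E, hE, hE'⟩ := exists_mix (fun x : ℕ → Set (MAlg (coins X)) => fand (In U x) (MeetsFew H x))
      (fun x q hq r hr => (reg_fand (reg_in U x) (reg_meetsFew H x)).1 q hq r hr)
      (fun x p hp => (reg_fand (reg_in U x) (reg_meetsFew H x)).2 p hp)
      (fun x y p hp hxy => ⟨in_ext U hp.1 hxy, meetsFew_ext H hp.2 hxy⟩) h1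
    refine ⟨E, ⟨hE, hE'.1⟩, ?_⟩
    have h2 : ∀ n : ℕ, coins X (q.s \ ⋃ s : Finset ℕ,
        {ω | s.card ≤ n + 1 ∧ ∀ k, ω ∈ E k → h ω n k ∈ s}) = 0 := by
      intro n
      have hFm : ∀ s : Finset ℕ, MeasurableSet {ω | s.card ≤ n + 1 ∧ ∀ k, ω ∈ E k → h ω n k ∈ s} := by
        intro s
        by_cases hs : s.card ≤ n + 1
        · have : {ω | s.card ≤ n + 1 ∧ ∀ k, ω ∈ E k → h ω n k ∈ s} =
              ⋂ k, ((E k)ᶜ ∪ (fun ω => h ω n k) ⁻¹' (s : Set ℕ)) := by
            ext ω
            simp only [hs, true_and, mem_setOf_eq, mem_iInter, mem_union, mem_compl_iff,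
              mem_preimage, Finset.mem_coe]
            exact forall_congr' fun k => imp_iff_not_or
          rw [this]
          exact MeasurableSet.iInter fun k => (hE k).compl.union
            (hmeas n k (MeasurableSet.of_discrete))
        · have : {ω | s.card ≤ n + 1 ∧ ∀ k, ω ∈ E k → h ω n k ∈ s} = ∅ := by
            ext ω; simp [hs]
          rw [this]
          exact MeasurableSet.empty
      refine null_of_fex (MeasurableSet.iUnion hFm) (hE'.2 n) ?_
      rintro s r - ⟨hs, hr⟩
      have h3 : ∀ k a, a ∉ s → coins X (r.s ∩ (E k ∩ {ω | h ω n k = a})) = 0 := by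
        intro k a ha
        refine inter_null_of_imp (hE k) (hm' n k a) ha fun t ht h4 h5 => ?_
        obtain ⟨u, -, hu⟩ := mem_fimp.1 (hr k a) t ht
          ⟨(mem_meets_cst (hE k)).2 h4, (mem_meets_cst (hm' n k a)).2 h5⟩
        exact hu
      have h4 : r.s \ {ω | s.card ≤ n + 1 ∧ ∀ k, ω ∈ E k → h ω n k ∈ s} ⊆
          ⋃ k, ⋃ a, ⋃ _ : a ∉ s, r.s ∩ (E k ∩ {ω | h ω n k = a}) := by
        rintro ω ⟨hω, hω'⟩
        simp only [mem_setOf_eq, not_and, not_forall] at hω'
        obtain ⟨k, hk, hk'⟩ := hω' hs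
        simp only [mem_iUnion]
        exact ⟨k, h ω n k, hk', hω, hk, rfl⟩
      exact measure_mono_null h4 (measure_iUnion_null fun k => measure_iUnion_null fun a =>
        measure_iUnion_null fun ha => h3 k a ha)
    have h3 : ∀ᵐ ω ∂(coins X), ∀ n : ℕ, ω ∈ q.s → ω ∈ ⋃ s : Finset ℕ,
        {ω | s.card ≤ n + 1 ∧ ∀ k, ω ∈ E k → h ω n k ∈ s} := by
      rw [ae_all_iff]
      exact fun n => ae_of_null (h2 n)
    filter_upwards [h3] with ω hω hωq n
    obtain ⟨s, hs, hs'⟩ := mem_iUnion.1 (hω n hωq)
    exact ⟨s, hs, hs'⟩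

end Pool.Agent.R582.Rand
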